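import Mathlib

set_option autoImplicit false
set_option linter.unusedSectionVars false

open Set

namespace Pool.Agent.P.MP_8fd369_lc

section Coherent

variable {I : Type} [LinearOrder I] [WellFoundedLT I]

/-- The recursion producing a coherent family of finite-to-one maps. -/
noncomputable def erec (c : I → I → ℕ) (g : I → I → I) (hg : ∀ a x, x < a → g a x < a) :
    I → I → ℕ :=
  (wellFounded_lt (α := I)).fix fun a ih x =>
    if h : x < a then max (ih (g a x) (hg a x h) x) (c a (g a x)) else 0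

lemma erec_eq (c : I → I → ℕ) (g : I → I → I) (hg : ∀ a x, x < a → g a x < a) (a x : I)
    (h : x < a) : erec c g hg a x = max (erec c g hg (g a x) x) (c a (g a x)) := by
  conv_lhs => rw [erec, WellFounded.fix_eq]
  rw [dif_pos h]
  rfl

theorem exists_coherent (hc : ∀ a : I, (Iio a).Countable) :
    ∃ e : I → I → ℕ, (∀ a k, {x | x < a ∧ e a x ≤ k}.Finite) ∧
      ∀ a b, a ≤ b → {x | x < a ∧ e a x ≠ e b x}.Finite := by
  classical
  choose c hcinj using fun a => Set.countable_iff_exists_injOn.mp (hc a)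
  have hgex : ∀ a x : I, ∃ y, x < a → (x ≤ y ∧ y < a ∧ ∀ z, x ≤ z → z < a → c a y ≤ c a z) := by
    intro a x
    by_cases h : x < a
    · have hx : x ∈ {y | x ≤ y ∧ y < a} := ⟨le_rfl, h⟩
      refine ⟨Function.argminOn (c a) {y | x ≤ y ∧ y < a} ⟨x, hx⟩, fun _ => ?_⟩
      have hm := Function.argminOn_mem (c a) {y | x ≤ y ∧ y < a} ⟨x, hx⟩
      exact ⟨hm.1, hm.2, fun z h1 h2 =>
        Function.argminOn_le (c a) {y | x ≤ y ∧ y < a} (a := z) ⟨h1, h2⟩⟩
    · exact ⟨x, fun h' => absurd h' h⟩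
  choose g hg using hgex
  have hF : ∀ a k, {y | y < a ∧ c a y ≤ k}.Finite := by
    intro a k
    refine Set.Finite.of_finite_image (f := c a) ((finite_Iic k).subset ?_)
      ((hcinj a).mono fun y hy => hy.1)
    rintro _ ⟨y, hy, rfl⟩
    exact hy.2
  set e := erec c g (fun a x h => (hg a x h).2.1) with he
  have hrec : ∀ a x, x < a → e a x = max (e (g a x) x) (c a (g a x)) := by
    intro a x h
    exact erec_eq _ _ _ a x h
  have hfin : ∀ a k, {x | x < a ∧ e a x ≤ k}.Finite := by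
    intro a
    induction a using WellFoundedLT.induction with
    | ind a ih =>
      intro k
      refine ((hF a k).biUnion (t := fun y => insert y {x | x < y ∧ e y x ≤ k})
        (fun y hy => (ih y hy.1 k).insert y)).subset ?_
      rintro x ⟨h1, h2⟩
      rw [hrec a x h1, max_le_iff] at h2
      obtain ⟨g1, g2, -⟩ := hg a x h1
      refine mem_biUnion (x := g a x) ⟨g2, h2.2⟩ ?_
      rcases g1.eq_or_lt with h | h
      · exact Or.inl h
      · exact Or.inr ⟨h, h2.1⟩
  refine ⟨e, hfin, ?_⟩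
  intro a b
  induction b using WellFoundedLT.induction generalizing a with
  | ind b ih =>
    intro hab
    rcases hab.eq_or_lt with h | h
    · subst h; simp
    have hpair : ∀ y, y < b → {x | x < a ∧ x < y ∧ e a x ≠ e y x}.Finite := by
      intro y hy
      rcases le_total a y with h' | h'
      · exact (ih y hy a h').subset fun x hx => ⟨hx.1, hx.2.2⟩
      · exact (ih a h y h').subset fun x hx => ⟨hx.2.1, hx.2.2.symm⟩
    refine ((hF b (c b a)).biUnion (t := fun y => insert y
      ({x | x < y ∧ e y x ≤ c b a} ∪ {x | x < a ∧ x < y ∧ e a x ≠ e y x}))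
      (fun y hy => ((hfin y _).union (hpair y hy.1)).insert y)).subset ?_
    rintro x ⟨h1, h2⟩
    have hxb := h1.trans h
    obtain ⟨g1, g2, g3⟩ := hg b x hxb
    have g4 := g3 a h1.le h
    refine mem_biUnion (x := g b x) ⟨g2, g4⟩ ?_
    rcases g1.eq_or_lt with h' | h'
    · exact Or.inl h'
    · right
      by_cases h3 : e (g b x) x ≤ c b a
      · exact Or.inl ⟨h', h3⟩
      · refine Or.inr ⟨h1, h', ?_⟩
        rw [hrec b x hxb, max_eq_left (by omega)] at h2
        exact h2

theorem exists_bound [Uncountable I] (hc : ∀ a : I, (Iio a).Countable) {C : Set I}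
    (hC : C.Countable) : ∃ a, ∀ x ∈ C, x < a := by
  by_contra hcon
  push Not at hcon
  have : (univ : Set I).Countable := by
    refine (hC.biUnion (t := fun x _ => insert x (Iio x)) fun x _ => (hc x).insert x).mono ?_
    intro a _
    obtain ⟨x, hx, hax⟩ := hcon a
    refine mem_biUnion hx ?_
    rcases hax.eq_or_lt with h | h
    · exact Or.inl h
    · exact Or.inr h
  exact not_countable_univ this

end Coherent

/-- The data of an index order of type omega one with a coherent family on it. -/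
structure Data (I : Type) [LinearOrder I] where
  e : I → I → ℕ
  cnt : ∀ a : I, (Iio a).Countable
  fin : ∀ a k, {x | x < a ∧ e a x ≤ k}.Finite
  coh : ∀ a b, a ≤ b → {x | x < a ∧ e a x ≠ e b x}.Finite
  nx : I → I
  lt_nx : ∀ a, a < nx a
  nx_le : ∀ a x, a < x → nx a ≤ x

variable {I : Type} [LinearOrder I] [WellFoundedLT I]

theorem nonempty_data [Uncountable I] (hc : ∀ a : I, (Iio a).Countable) : Nonempty (Data I) := by
  obtain ⟨e, h1, h2⟩ := exists_coherent hc
  have : ∀ a : I, ∃ b, a < b ∧ ∀ x, a < x → b ≤ x := by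
    intro a
    obtain ⟨b, hb⟩ := exists_bound hc (countable_singleton a)
    have hne : (Ioi a).Nonempty := ⟨b, hb a rfl⟩
    exact ⟨wellFounded_lt.min _ hne, wellFounded_lt.min_mem _ hne,
      fun x hx => not_lt.mp (wellFounded_lt.not_lt_min _ hx)⟩
  choose nx h3 h4 using this
  exact ⟨⟨e, hc, h1, h2, nx, h3, h4⟩⟩

namespace Data

variable (D : Data I)

/-- `s` is a node of height `a`. -/
def Node (s : I → WithBot ℤ) (a : I) : Prop :=
  (∀ x, s x = ⊥ ↔ a ≤ x) ∧ {x | x < a ∧ s x ≠ ((D.e a x : ℤ) : WithBot ℤ)}.Finite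

/-- The line: all nodes, lexicographically ordered. -/
def Line : Type := {s : Lex (I → WithBot ℤ) // ∃ a, D.Node s a}

noncomputable instance : LinearOrder D.Line :=
  inferInstanceAs (LinearOrder {s : Lex (I → WithBot ℤ) // ∃ a, D.Node s a})

variable {D}

/-- The underlying function of a node. -/
def Line.fn (s : D.Line) : I → WithBot ℤ := s.1

/-- The height of a node. -/
noncomputable def Line.ht (s : D.Line) : I := s.2.choose

lemma Line.node (s : D.Line) : D.Node s.fn s.ht := s.2.choose_spec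

lemma Line.ext' {s t : D.Line} (h : s.fn = t.fn) : s = t := Subtype.ext h

lemma Line.lt_iff {s t : D.Line} :
    s < t ↔ ∃ i, (∀ j, j < i → s.fn j = t.fn j) ∧ s.fn i < t.fn i := Iff.rfl

lemma Line.apply_le {s t : D.Line} (h : s ≤ t) {i : I} (hi : ∀ j, j < i → s.fn j = t.fn j) :
    s.fn i ≤ t.fn i :=
  Pi.apply_le_of_toLex (x := s.fn) (y := t.fn) h hi

lemma Node.unique {s : I → WithBot ℤ} {a b : I} (ha : D.Node s a) (hb : D.Node s b) : a = b :=
  le_antisymm ((ha.1 b).mp ((hb.1 b).mpr le_rfl)) ((hb.1 a).mp ((ha.1 a).mpr le_rfl))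

lemma Line.bot_iff (s : D.Line) (x : I) : s.fn x = ⊥ ↔ s.ht ≤ x := s.node.1 x

lemma sandwich {s t u : D.Line} (h1 : s ≤ t) (h2 : t ≤ u) {a : I}
    (h : ∀ j, j < a → s.fn j = u.fn j) : ∀ j, j < a → t.fn j = s.fn j := by
  intro j
  induction j using WellFoundedLT.induction with
  | ind j ih =>
    intro hj
    have a1 : s.fn j ≤ t.fn j := Line.apply_le h1 fun k hk => (ih k hk (hk.trans hj)).symm
    have a2 : t.fn j ≤ u.fn j := Line.apply_le h2 fun k hk =>
      (ih k hk (hk.trans hj)).trans (h k (hk.trans hj))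
    rw [← h j hj] at a2
    exact le_antisymm a2 a1

lemma node_update (s : D.Line) (k : ℤ) :
    D.Node (Function.update s.fn s.ht (k : WithBot ℤ)) (D.nx s.ht) := by
  constructor
  · intro x
    by_cases hx : x = s.ht
    · subst hx
      simp [not_le.mpr (D.lt_nx _)]
    · rw [Function.update_of_ne hx, s.bot_iff]
      exact ⟨fun h => D.nx_le _ _ (lt_of_le_of_ne h (Ne.symm hx)),
        fun h => ((D.lt_nx _).trans_le h).le⟩
  · refine ((s.node.2.union (D.coh _ _ (D.lt_nx s.ht).le)).insert s.ht).subset ?_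
    rintro x ⟨h1, h2⟩
    by_cases hx : x = s.ht
    · exact Or.inl hx
    right
    rw [Function.update_of_ne hx] at h2
    have h3 : x < s.ht := by
      by_contra h
      exact absurd (D.nx_le _ _ (lt_of_le_of_ne (not_lt.mp h) (Ne.symm hx))) (not_le.mpr h1)
    by_cases h4 : D.e s.ht x = D.e (D.nx s.ht) x
    · exact Or.inl ⟨h3, by rw [h4]; exact h2⟩
    · exact Or.inr ⟨h3, h4⟩

/-- The one step extension of a node. -/
noncomputable def Line.ext1 (s : D.Line) (k : ℤ) : D.Line :=
  ⟨toLex (Function.update s.fn s.ht (k : WithBot ℤ)), D.nx s.ht, node_update s k⟩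

lemma ext1_self (s : D.Line) (k : ℤ) : (s.ext1 k).fn s.ht = k := by
  show Function.update s.fn s.ht (k : WithBot ℤ) s.ht = k
  simp

lemma ext1_ne (s : D.Line) (k : ℤ) {x : I} (h : x ≠ s.ht) : (s.ext1 k).fn x = s.fn x := by
  show Function.update s.fn s.ht (k : WithBot ℤ) x = s.fn x
  exact Function.update_of_ne h _ _

lemma lt_ext1 (s : D.Line) (k : ℤ) : s < s.ext1 k := by
  refine Line.lt_iff.mpr ⟨s.ht, fun j hj => (ext1_ne s k hj.ne).symm, ?_⟩
  rw [ext1_self, (s.bot_iff _).mpr le_rfl]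
  exact WithBot.bot_lt_coe k

lemma first_diff_le {s t : D.Line} {i : I} (h1 : ∀ j, j < i → s.fn j = t.fn j)
    (h2 : s.fn i < t.fn i) : i ≤ s.ht := by
  by_contra h
  have h3 := not_le.mp h
  have h4 : t.fn s.ht = ⊥ := by rw [← h1 _ h3]; exact (s.bot_iff _).mpr le_rfl
  have h5 : t.fn i = ⊥ := (t.bot_iff _).mpr (((t.bot_iff _).mp h4).trans h3.le)
  rw [h5] at h2
  exact not_lt_bot h2

instance : DenselyOrdered D.Line where
  dense s t hst := by
    obtain ⟨i, h1, h2⟩ := Line.lt_iff.mp hst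
    rcases (first_diff_le h1 h2).eq_or_lt with h | h
    · subst h
      obtain ⟨k, hk⟩ := WithBot.ne_bot_iff_exists.mp (ne_bot_of_gt h2)
      refine ⟨s.ext1 (k - 1), lt_ext1 _ _, Line.lt_iff.mpr ⟨s.ht, fun j hj => ?_, ?_⟩⟩
      · rw [ext1_ne s _ hj.ne, h1 j hj]
      · rw [ext1_self, ← hk]
        exact WithBot.coe_lt_coe.mpr (by omega)
    · refine ⟨s.ext1 0, lt_ext1 _ _, Line.lt_iff.mpr ⟨i, fun j hj => ?_, ?_⟩⟩
      · rw [ext1_ne s _ (hj.trans h).ne, h1 j hj]
      · rw [ext1_ne s _ h.ne]; exact h2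

lemma between {s t : D.Line} (h1 : s < t) (h2 : t < s.ext1 0) :
    (∀ j, j < s.ht → t.fn j = s.fn j) ∧ s.ht < t.ht ∧ t.fn s.ht < ((0 : ℤ) : WithBot ℤ) := by
  have h3 : ∀ j, j < s.ht → t.fn j = s.fn j :=
    sandwich h1.le h2.le fun j hj => (ext1_ne s 0 hj.ne).symm
  refine ⟨h3, ?_, ?_⟩
  · by_contra h
    refine h1.ne (Line.ext' (funext fun x => ?_))
    rcases lt_or_ge x s.ht with hx | hx
    · exact (h3 x hx).symm
    · rw [(s.bot_iff x).mpr hx, (t.bot_iff x).mpr ((not_lt.mp h).trans hx)]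
  · obtain ⟨i, a1, a2⟩ := Line.lt_iff.mp h2
    rcases lt_trichotomy i s.ht with h | h | h
    · rw [ext1_ne s 0 h.ne, h3 i h] at a2
      exact absurd a2 (lt_irrefl _)
    · rw [h, ext1_self] at a2
      exact a2
    · rw [ext1_ne s 0 h.ne', (s.bot_iff i).mpr h.le] at a2
      exact absurd a2 not_lt_bot

lemma ext1_lt_ext1 {s t : D.Line} (h1 : s < t) (h2 : t < s.ext1 0) : t.ext1 0 < s.ext1 0 := by
  obtain ⟨a1, a2, a3⟩ := between h1 h2
  refine Line.lt_iff.mpr ⟨s.ht, fun j hj => ?_, ?_⟩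
  · rw [ext1_ne t 0 (hj.trans a2).ne, ext1_ne s 0 hj.ne, a1 j hj]
  · rw [ext1_ne t 0 a2.ne, ext1_self]; exact a3

lemma no_limit (a : ℕ → D.Line) (h : ∀ n, a n < a (n + 1) ∧ a (n + 1) < (a n).ext1 0)
    (x : D.Line) (hx : ∀ n, a n < x ∧ x < (a n).ext1 0) : False := by
  have hm : StrictMono fun n => (a n).ht :=
    strictMono_nat_of_lt_succ fun n => (between (h n).1 (h n).2).2.1
  refine (infinite_range_of_injective hm.injective) (x.node.2.subset ?_)
  rintro _ ⟨n, rfl⟩
  obtain ⟨-, a2, a3⟩ := between (hx n).1 (hx n).2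
  refine ⟨a2, fun h0 => ?_⟩
  rw [h0] at a3
  have := WithBot.coe_lt_coe.mp a3
  omega

lemma level_countable (a : I) : {s : D.Line | s.ht = a}.Countable := by
  have hc : ((Iio a) ×ˢ (univ : Set (WithBot ℤ))).Countable := (D.cnt a).prod countable_univ
  refine countable_of_injective_of_countable_image
    (f := fun s : D.Line => (fun x => (x, s.fn x)) ''
      {x | x < a ∧ s.fn x ≠ ((D.e a x : ℤ) : WithBot ℤ)}) ?_
    ((countable_ofPred_finite_subset hc).mono ?_)
  · intro s hs t ht hst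
    have hs' : s.ht = a := hs
    have ht' : t.ht = a := ht
    refine Line.ext' (funext fun x => ?_)
    rcases lt_or_ge x a with hx | hx
    · by_cases h1 : s.fn x = ((D.e a x : ℤ) : WithBot ℤ)
      · by_cases h2 : t.fn x = ((D.e a x : ℤ) : WithBot ℤ)
        · rw [h1, h2]
        · have : (x, t.fn x) ∈ (fun x => (x, s.fn x)) ''
              {x | x < a ∧ s.fn x ≠ ((D.e a x : ℤ) : WithBot ℤ)} := by
            simp only at hst
            rw [hst]; exact ⟨x, ⟨hx, h2⟩, rfl⟩
          obtain ⟨y, -, hy⟩ := this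
          simp only [Prod.mk.injEq] at hy
          rw [← hy.2, hy.1]
      · have : (x, s.fn x) ∈ (fun x => (x, t.fn x)) ''
            {x | x < a ∧ t.fn x ≠ ((D.e a x : ℤ) : WithBot ℤ)} := by
          simp only at hst
          rw [← hst]; exact ⟨x, ⟨hx, h1⟩, rfl⟩
        obtain ⟨y, -, hy⟩ := this
        simp only [Prod.mk.injEq] at hy
        rw [← hy.2, hy.1]
    · rw [(s.bot_iff x).mpr (hs' ▸ hx), (t.bot_iff x).mpr (ht' ▸ hx)]
  · rintro _ ⟨s, hs, rfl⟩
    have hs' : s.ht = a := hs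
    refine ⟨Finite.image _ (hs' ▸ s.node.2), ?_⟩
    rintro _ ⟨x, hx, rfl⟩
    exact ⟨hx.1, trivial⟩

lemma low_countable (a : I) : {s : D.Line | s.ht ≤ a}.Countable := by
  refine (((D.cnt a).insert a).biUnion fun b _ => level_countable (D := D) b).mono ?_
  intro s hs
  refine mem_biUnion (x := s.ht) ?_ rfl
  rcases (show s.ht ≤ a from hs).eq_or_lt with h | h
  · exact Or.inl h
  · exact Or.inr h

lemma node_trunc (s : D.Line) (a : I) :
    D.Node (fun x => if x < a then s.fn x else ⊥) (min a s.ht) := by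
  constructor
  · intro x
    by_cases hx : x < a
    · simp [hx, s.bot_iff, not_le.mpr hx]
    · simp [hx, not_lt.mp hx]
  · refine (s.node.2.union (D.coh _ _ (min_le_right a s.ht))).subset ?_
    rintro x ⟨h1, h2⟩
    have h3 := lt_min_iff.mp h1
    simp only [h3.1, if_true] at h2
    by_cases h4 : D.e (min a s.ht) x = D.e s.ht x
    · exact Or.inl ⟨h3.2, by rw [← h4]; exact h2⟩
    · exact Or.inr ⟨h1, h4⟩

/-- Truncation of a node. -/
noncomputable def Line.trunc (s : D.Line) (a : I) : D.Line :=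
  ⟨toLex (fun x => if x < a then s.fn x else ⊥), min a s.ht, node_trunc s a⟩

lemma trunc_ht (s : D.Line) (a : I) : (s.trunc a).ht ≤ a := by
  have : (s.trunc a).ht = min a s.ht := (s.trunc a).node.unique (node_trunc s a)
  rw [this]; exact min_le_left _ _

lemma trunc_eq_iff {s t : D.Line} {a : I} :
    s.trunc a = t.trunc a ↔ ∀ x, x < a → s.fn x = t.fn x := by
  constructor
  · intro h x hx
    have := congrFun (congrArg Line.fn h) x
    change (if x < a then s.fn x else ⊥) = (if x < a then t.fn x else ⊥) at this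
    simpa [hx] using this
  · intro h
    refine Line.ext' (funext fun x => ?_)
    change (if x < a then s.fn x else ⊥) = (if x < a then t.fn x else ⊥)
    by_cases hx : x < a
    · simp [hx, h x hx]
    · simp [hx]

lemma fiber_finite (s : D.Line) (k : WithBot ℤ) : {x | x < s.ht ∧ s.fn x = k}.Finite := by
  by_cases hk : ∃ n : ℕ, k = ((n : ℤ) : WithBot ℤ)
  · obtain ⟨n, rfl⟩ := hk
    refine (s.node.2.union (D.fin s.ht n)).subset ?_
    rintro x ⟨h1, h2⟩
    by_cases h3 : s.fn x = ((D.e s.ht x : ℤ) : WithBot ℤ)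
    · refine Or.inr ⟨h1, ?_⟩
      rw [h2] at h3
      have := WithBot.coe_injective h3
      omega
    · exact Or.inl ⟨h1, h3⟩
  · refine s.node.2.subset ?_
    rintro x ⟨h1, h2⟩
    exact ⟨h1, fun h3 => hk ⟨_, h2.symm.trans h3⟩⟩

lemma uncountable_line [Uncountable I] : Uncountable D.Line := by
  have hn : ∀ a : I, D.Node (fun x => if x < a then ((D.e a x : ℤ) : WithBot ℤ) else ⊥) a := by
    intro a
    constructor
    · intro x
      by_cases hx : x < a
      · simp [hx]
      · simp [hx, not_lt.mp hx]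
    · refine finite_empty.subset ?_
      rintro x ⟨h1, h2⟩
      simp [h1] at h2
  let f : I → D.Line := fun a => ⟨toLex _, a, hn a⟩
  have hf : Function.Injective f := by
    intro a b hab
    have h1 : (f a).ht = a := (f a).node.unique (hn a)
    have h2 : (f b).ht = b := (f b).node.unique (hn b)
    rw [← h1, ← h2, hab]
  exact hf.uncountable

lemma no_chain [Uncountable I] (f : I → D.Line) (hinj : Function.Injective f)
    (hbtw : ∀ a b c, a ≤ b → b ≤ c → (f a ≤ f b ∧ f b ≤ f c) ∨ (f c ≤ f b ∧ f b ≤ f a)) :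
    False := by
  have key : ∀ a : I, ∃ ξ, a ≤ (f ξ).ht ∧ ∀ η, ξ ≤ η → ∀ x, x < a → (f η).fn x = (f ξ).fn x := by
    intro a
    have hr : (range fun ξ => (f ξ).trunc a).Countable :=
      (low_countable a).mono (by rintro _ ⟨ξ, rfl⟩; exact trunc_ht _ _)
    have hsel : ∀ v : D.Line, ∃ ξ, v ∈ (range fun ξ => (f ξ).trunc a) → (f ξ).trunc a = v := by
      intro v
      by_cases hv : v ∈ range fun ξ => (f ξ).trunc a
      · obtain ⟨ξ, hξ⟩ := hv
        exact ⟨ξ, fun _ => hξ⟩
      · exact ⟨a, fun h => absurd h hv⟩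
    choose sel hsel using hsel
    have hlow : (f ⁻¹' {s | s.ht ≤ a}).Countable := (low_countable a).preimage hinj
    obtain ⟨ξ, hξ⟩ := exists_bound D.cnt ((hr.image sel).union hlow)
    refine ⟨ξ, ?_, ?_⟩
    · by_contra h
      exact lt_irrefl _ (hξ ξ (Or.inr (not_le.mp h).le))
    · intro η hη
      have h1 : sel ((f η).trunc a) < ξ := hξ _ (Or.inl ⟨_, ⟨η, rfl⟩, rfl⟩)
      have h2 := trunc_eq_iff.mp (hsel ((f η).trunc a) ⟨η, rfl⟩)
      intro x hx
      rcases hbtw _ _ _ h1.le hη with h | h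
      · rw [sandwich h.1 h.2 h2 x hx, h2 x hx]
      · exact (sandwich h.1 h.2 (fun j hj => (h2 j hj).symm) x hx).symm
  choose ξ hξ1 hξ2 using key
  let G : I → WithBot ℤ := fun x => (f (ξ (D.nx x))).fn x
  have hG : ∀ a x, x < a → G x = (f (ξ a)).fn x := by
    intro a x hx
    have h1 := hξ2 a (max (ξ a) (ξ (D.nx x))) (le_max_left _ _) x hx
    have h2 := hξ2 (D.nx x) (max (ξ a) (ξ (D.nx x))) (le_max_right _ _) x (D.lt_nx x)
    exact h2.symm.trans h1
  have hfib : ∀ k, (G ⁻¹' {k}).Finite := by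
    intro k
    by_contra hinf
    obtain ⟨C, hC1, hC2, hC3⟩ := Set.Infinite.exists_subset_countable_infinite hinf
    obtain ⟨a, ha⟩ := exists_bound D.cnt hC2
    refine hC3 ((fiber_finite (f (ξ a)) k).subset fun x hx => ?_)
    exact ⟨(ha x hx).trans_le (hξ1 a), (hG a x (ha x hx)).symm.trans (hC1 hx)⟩
  refine not_countable_univ (α := I) ((countable_iUnion fun k => (hfib k).countable).mono ?_)
  intro x _
  exact mem_iUnion.mpr ⟨G x, rfl⟩

lemma no_strictMono [Uncountable I] (f : I → D.Line) : ¬ StrictMono f := fun hf =>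
  no_chain f hf.injective fun _ _ _ h1 h2 => Or.inl ⟨hf.monotone h1, hf.monotone h2⟩

lemma no_strictAnti [Uncountable I] (f : I → D.Line) : ¬ StrictAnti f := fun hf =>
  no_chain f hf.injective fun _ _ _ h1 h2 => Or.inr ⟨hf.antitone h2, hf.antitone h1⟩

lemma real_countable [Uncountable I] (B : Set D.Line) (φ : B → ℝ) (hφ : StrictMono φ) :
    B.Countable := by
  by_contra hB
  have hne : Nonempty B := by
    by_contra h
    exact hB (by rw [not_nonempty_iff, isEmpty_coe_sort] at h; rw [h]; exact countable_empty)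
  have hsel : ∀ pq : ℚ × ℚ, ∃ d : B, (∃ b : B, (pq.1 : ℝ) < φ b ∧ φ b < pq.2) →
      (pq.1 : ℝ) < φ d ∧ φ d < pq.2 := by
    intro pq
    by_cases h : ∃ b : B, (pq.1 : ℝ) < φ b ∧ φ b < pq.2
    · obtain ⟨b, hb⟩ := h
      exact ⟨b, fun _ => hb⟩
    · exact ⟨hne.some, fun h' => absurd h' h⟩
  choose d hd using hsel
  obtain ⟨a, ha⟩ := exists_bound D.cnt (countable_range fun pq => (d pq : D.Line).ht)
  have hfib : ∀ v : D.Line, {b | b ∈ B ∧ a ≤ b.ht ∧ b.trunc a = v}.Finite := by
    intro v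
    by_contra hinf
    obtain ⟨t, ht1, ht2⟩ := Set.Infinite.exists_subset_card_eq hinf 3
    have hm : ∀ i, t.orderEmbOfFin ht2 i ∈ {b | b ∈ B ∧ a ≤ b.ht ∧ b.trunc a = v} :=
      fun i => ht1 (t.orderEmbOfFin_mem ht2 i)
    let b : Fin 3 → B := fun i => ⟨_, (hm i).1⟩
    have hb : StrictMono b := fun i j hij => (t.orderEmbOfFin ht2).strictMono hij
    obtain ⟨p, hp1, hp2⟩ := exists_rat_btwn (hφ (hb (show (0 : Fin 3) < 1 by decide)))
    obtain ⟨q, hq1, hq2⟩ := exists_rat_btwn (hφ (hb (show (1 : Fin 3) < 2 by decide)))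
    obtain ⟨h1, h2⟩ := hd (p, q) ⟨b 1, hp2, hq1⟩
    have h3 : b 0 < d (p, q) := hφ.lt_iff_lt.mp (hp1.trans h1)
    have h4 : d (p, q) < b 2 := hφ.lt_iff_lt.mp (h2.trans hq2)
    have h5 := trunc_eq_iff.mp ((hm 0).2.2.trans (hm 2).2.2.symm)
    have h6 := ha _ ⟨(p, q), rfl⟩
    have h7 := sandwich (s := (b 0 : D.Line)) (t := (d (p, q) : D.Line)) (u := (b 2 : D.Line))
      (Subtype.coe_le_coe.mpr h3.le) (Subtype.coe_le_coe.mpr h4.le) h5 _ h6
    rw [((d (p, q) : D.Line).bot_iff _).mpr le_rfl] at h7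
    exact absurd ((hm 0).2.1.trans (((b 0 : D.Line).bot_iff _).mp h7.symm)) (not_le.mpr h6)
  refine hB (((low_countable a).union
    ((low_countable a).biUnion fun v _ => (hfib v).countable)).mono ?_)
  intro b hb
  rcases le_total b.ht a with h | h
  · exact Or.inl h
  · exact Or.inr (mem_biUnion (x := b.trunc a) (trunc_ht b a) ⟨hb, h, rfl⟩)

end Data

end Pool.Agent.P.MP_8fd369_lc
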